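import Pool.Agent.R742.FI.Munn

set_option autoImplicit false

/-! Munn trees of elements of the free inverse monoid; endomorphisms. -/

namespace Pool.Agent.R742.FI

open Pointwise
open FreeGroup (mk invRev inv_mk invRev_append invRev_invRev)

variable {α : Type*}

/-- a representing word -/
noncomputable def rep (x : FIM α) : List (α × Bool) := (cls_surj x).choose

lemma cls_rep (x : FIM α) : cls (rep x) = x := (cls_surj x).choose_spec

/-- the Munn tree of an element -/
def tr (x : FIM α) : Set (FreeGroup α) := Pr (rep x)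

/-- the value of an element in the free group -/
noncomputable def gp (x : FIM α) : FreeGroup α := mk (rep x)

lemma tr_cls (w : List (α × Bool)) : tr (cls w) = Pr w := (cls_sound (cls_rep (cls w))).1
lemma gp_cls (w : List (α × Bool)) : gp (cls w) = mk w := (cls_sound (cls_rep (cls w))).2

lemma ext' {x y : FIM α} (h1 : tr x = tr y) (h2 : gp x = gp y) : x = y := by
  rw [← cls_rep x, ← cls_rep y]
  exact (munn _ _).2 ⟨h1, h2⟩

lemma gp_mul (x y : FIM α) : gp (x * y) = gp x * gp y := by
  obtain ⟨u, rfl⟩ := cls_surj x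
  obtain ⟨v, rfl⟩ := cls_surj y
  rw [← cls_append, gp_cls, gp_cls, gp_cls, mk_app]

lemma tr_mul (x y : FIM α) : tr (x * y) = tr x ∪ gp x • tr y := by
  obtain ⟨u, rfl⟩ := cls_surj x
  obtain ⟨v, rfl⟩ := cls_surj y
  rw [← cls_append, tr_cls, tr_cls, tr_cls, gp_cls, Pr_append]

lemma gp_one : gp (1 : FIM α) = 1 := by
  rw [← cls_nil, gp_cls]; rfl

lemma tr_one : tr (1 : FIM α) = {1} := by
  rw [← cls_nil, tr_cls, Pr_nil]

lemma one_mem_tr (x : FIM α) : (1 : FreeGroup α) ∈ tr x := one_mem_Pr _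
lemma gp_mem_tr (x : FIM α) : gp x ∈ tr x := mk_mem_Pr _
lemma tr_finite (x : FIM α) : (tr x).Finite := Pr_finite _

lemma gp_pow (x : FIM α) (n : ℕ) : gp (x ^ n) = gp x ^ n := by
  induction n with
  | zero => rw [pow_zero, pow_zero, gp_one]
  | succ n ih => rw [pow_succ, pow_succ, gp_mul, ih]

/-- the inverse -/
noncomputable def iv (x : FIM α) : FIM α := cls (invRev (rep x))

lemma gp_iv (x : FIM α) : gp (iv x) = (gp x)⁻¹ := by
  unfold iv gp
  rw [← gp.eq_1, gp_cls, inv_mk]

lemma tr_iv (x : FIM α) : tr (iv x) = (gp x)⁻¹ • tr x := by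
  unfold iv
  rw [tr_cls, Pr_invRev]
  rfl

lemma iv_unique {a b : FIM α} (h1 : a * b * a = a) (h2 : b * a * b = b) : b = iv a := by
  have g1 := congrArg gp h1
  rw [gp_mul, gp_mul] at g1
  have hg : gp b = (gp a)⁻¹ := by
    have : gp a * gp b = 1 := by
      have := congrArg (· * (gp a)⁻¹) g1
      simpa using this
    exact eq_inv_of_mul_eq_one_right this
  apply ext'
  · rw [tr_iv]
    have t1 := congrArg tr h1
    have t2 := congrArg tr h2
    rw [tr_mul, tr_mul, gp_mul] at t1 t2
    apply Set.Subset.antisymm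
    · intro x hx
      rw [Set.mem_inv_smul_set_iff, ← t1]
      left; right
      exact Set.smul_mem_smul_set hx
    · intro x hx
      rw [← t2]
      left; right
      rw [hg]
      exact hx
  · rw [hg, gp_iv]

lemma mul_iv_mul (x : FIM α) : x * iv x * x = x := by
  obtain ⟨u, rfl⟩ := cls_surj x
  apply ext'
  · rw [tr_mul, tr_mul, tr_iv, gp_mul, gp_iv]
    simp
  · simp [gp_mul, gp_iv]

lemma iv_mul_iv (x : FIM α) : iv x * x * iv x = iv x := by
  apply ext'
  · rw [tr_mul, tr_mul, tr_iv, gp_mul, gp_iv]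
    simp
  · simp [gp_mul, gp_iv]

/-- the idempotent `x x⁻¹` -/
noncomputable def E (x : FIM α) : FIM α := x * iv x

lemma tr_E (x : FIM α) : tr (E x) = tr x := by
  unfold E
  rw [tr_mul, tr_iv]
  simp

lemma gp_E (x : FIM α) : gp (E x) = 1 := by
  unfold E
  rw [gp_mul, gp_iv, mul_inv_cancel]

section endo

variable (φ : FIM α →* FIM α)

lemma map_iv (x : FIM α) : φ (iv x) = iv (φ x) := by
  apply iv_unique
  · rw [← map_mul, ← map_mul, mul_iv_mul]
  · rw [← map_mul, ← map_mul, iv_mul_iv]

lemma map_E (x : FIM α) : φ (E x) = E (φ x) := by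
  unfold E
  rw [map_mul, map_iv]

/-- the induced endomorphism of the free group -/
noncomputable def Ph : FreeGroup α →* FreeGroup α :=
  FreeGroup.lift (fun a => gp (φ (cls [(a, true)])))

lemma gp_letter (l : α × Bool) : gp (φ (cls [l])) = Ph φ (mk [l]) := by
  obtain ⟨a, b⟩ := l
  cases b with
  | true =>
    have : (mk [(a, true)] : FreeGroup α) = FreeGroup.of a := rfl
    rw [this, Ph, FreeGroup.lift_apply_of]
  | false =>
    have : (mk [(a, false)] : FreeGroup α) = (FreeGroup.of a)⁻¹ := rfl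
    rw [this, map_inv, Ph, FreeGroup.lift_apply_of]
    have h2 : cls [(a, false)] = iv (cls [(a, true)]) := by
      apply ext'
      · rw [tr_iv, tr_cls, tr_cls, gp_cls]
        rw [← Pr_invRev]
        rfl
      · rw [gp_iv, gp_cls, gp_cls]
        rfl
    rw [h2, map_iv, gp_iv]

lemma gp_map (x : FIM α) : gp (φ x) = Ph φ (gp x) := by
  obtain ⟨w, rfl⟩ := cls_surj x
  induction w with
  | nil =>
    rw [cls_nil, map_one, gp_one, map_one]
  | cons l w ih =>
    have : l :: w = [l] ++ w := rfl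
    rw [this, cls_append, map_mul, gp_mul, gp_mul, map_mul, ih, gp_letter, gp_cls [l]]

lemma gp_iter (k : ℕ) (x : FIM α) : gp (φ^[k] x) = (Ph φ)^[k] (gp x) := by
  induction k with
  | zero => rfl
  | succ k ih => rw [Function.iterate_succ_apply', Function.iterate_succ_apply', gp_map, ih]

lemma ph_mem {x : FIM α} (hx : x ∈ Fix φ) {p : FreeGroup α} (hp : p ∈ tr x) : Ph φ p ∈ tr x := by
  obtain ⟨w, rfl⟩ := cls_surj x
  rw [tr_cls] at hp
  obtain ⟨u, v, rfl, rfl⟩ := mem_Pr.1 hp
  have h : φ (cls (u ++ v)) = cls (u ++ v) := hx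
  rw [← h, cls_append, map_mul, tr_mul]
  left
  have := gp_mem_tr (φ (cls u))
  rwa [gp_map, gp_cls] at this

lemma ph_iter_mem {x : FIM α} (hx : x ∈ Fix φ) {p : FreeGroup α} (hp : p ∈ tr x) (k : ℕ) :
    (Ph φ)^[k] p ∈ tr x := by
  induction k with
  | zero => exact hp
  | succ k ih => rw [Function.iterate_succ_apply']; exact ph_mem φ hx ih

end endo

/-- every element has finitely many factors -/
lemma factors_finite (x : FIM α) : {y : FIM α | ∃ a b, x = a * y * b}.Finite := by
  have hS := tr_finite x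
  have h1 : ((fun q : FreeGroup α × FreeGroup α × Set (FreeGroup α) =>
      (q.1⁻¹ • q.2.2, q.1⁻¹ * q.2.1)) '' (tr x ×ˢ tr x ×ˢ 𝒫 (tr x))).Finite :=
    (hS.prod (hS.prod hS.finite_subsets)).image _
  refine Set.Finite.of_finite_image (f := fun y => (tr y, gp y)) (h1.subset ?_) ?_
  · rintro _ ⟨y, ⟨a, b, rfl⟩, rfl⟩
    refine ⟨(gp a, gp (a * y), gp a • tr y), ⟨?_, ?_, ?_⟩, ?_⟩
    · simp only [tr_mul]
      left; left
      exact gp_mem_tr a
    · simp only
      rw [tr_mul (a * y)]
      left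
      exact gp_mem_tr _
    · show gp a • tr y ⊆ _
      rw [tr_mul, tr_mul]
      intro z hz
      left; right
      exact hz
    · simp only [inv_smul_smul, gp_mul, inv_mul_cancel_left]
  · intro y _ y' _ h
    simp only [Prod.mk.injEq] at h
    exact ext' h.1 h.2

end Pool.Agent.R742.FI
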