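import Mathlib

set_option autoImplicit false

/-! A lemma on context-free languages: long words either have all their marked positions in a
short window, or a factor can be replaced by a shorter one without touching some marked position. -/

namespace Pool.Agent.R742.FI

variable {T : Type*}

/-- left-to-right derivations of terminal words -/
inductive Der (g : ContextFreeGrammar T) : List (Symbol T g.NT) → List T → Prop
  | nil : Der g [] []
  | term (t : T) (α : List (Symbol T g.NT)) (w : List T) (h : Der g α w) :
      Der g (Symbol.terminal t :: α) (t :: w)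
  | nont (r : ContextFreeRule T g.NT) (hr : r ∈ g.rules) (α : List (Symbol T g.NT))
      (s w : List T) (h1 : Der g r.output s) (h2 : Der g α w) :
      Der g (Symbol.nonterminal r.input :: α) (s ++ w)

lemma Der.derives {g : ContextFreeGrammar T} {α : List (Symbol T g.NT)} {w : List T}
    (h : Der g α w) : g.Derives α (w.map Symbol.terminal) := by
  induction h with
  | nil => exact Relation.ReflTransGen.refl
  | term t α w h ih =>
    exact ih.append_left [Symbol.terminal t]
  | nont r hr α s w h1 h2 ih1 ih2 =>
    have a1 : g.Produces (Symbol.nonterminal r.input :: α) (r.output ++ α) :=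
      ⟨r, hr, ContextFreeRule.Rewrites.head α⟩
    have a2 : g.Derives (r.output ++ α) (s.map Symbol.terminal ++ α) := ih1.append_right α
    have a3 : g.Derives (s.map Symbol.terminal ++ α)
      (s.map Symbol.terminal ++ w.map Symbol.terminal) := ih2.append_left _
    rw [List.map_append]
    exact (a1.single.trans a2).trans a3

lemma Der.append {g : ContextFreeGrammar T} {α β : List (Symbol T g.NT)} {v w : List T}
    (h : Der g α v) (h' : Der g β w) : Der g (α ++ β) (v ++ w) := by
  induction h with
  | nil => exact h'
  | term t α v h ih => exact Der.term t _ _ ih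
  | nont r hr α s v h1 h2 ih1 ih2 =>
    rw [List.append_assoc]
    exact Der.nont r hr _ _ _ h1 ih2

lemma Der.split {g : ContextFreeGrammar T} (α β : List (Symbol T g.NT)) {w : List T}
    (h : Der g (α ++ β) w) : ∃ u v, w = u ++ v ∧ Der g α u ∧ Der g β v := by
  induction α generalizing w with
  | nil => exact ⟨[], w, rfl, Der.nil, h⟩
  | cons a α ih =>
    rw [List.cons_append] at h
    cases h with
    | term t _ w h =>
      obtain ⟨u, v, rfl, h1, h2⟩ := ih h
      exact ⟨t :: u, v, rfl, Der.term t _ _ h1, h2⟩
    | nont r hr _ s w h1 h2 =>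
      obtain ⟨u, v, rfl, h3, h4⟩ := ih h2
      exact ⟨s ++ u, v, by simp, Der.nont r hr _ _ _ h1 h3, h4⟩

lemma der_terminal (g : ContextFreeGrammar T) (w : List T) :
    Der g (w.map Symbol.terminal) w := by
  induction w with
  | nil => exact Der.nil
  | cons t w ih => exact Der.term t _ _ ih

lemma der_of_produces {g : ContextFreeGrammar T} {α β : List (Symbol T g.NT)} {w : List T}
    (h : g.Produces α β) (hw : Der g β w) : Der g α w := by
  obtain ⟨r, hr, h⟩ := h
  obtain ⟨p, q, rfl, rfl⟩ := h.exists_parts
  obtain ⟨x, y, rfl, h1, h2⟩ := Der.split _ _ hw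
  obtain ⟨x1, x2, rfl, h3, h4⟩ := Der.split _ _ h1
  have : Der g (Symbol.nonterminal r.input :: q) (x2 ++ y) := Der.nont r hr _ _ _ h4 h2
  have h5 := h3.append this
  simpa using h5

lemma der_of_derives {g : ContextFreeGrammar T} {α : List (Symbol T g.NT)} {w : List T}
    (h : g.Derives α (w.map Symbol.terminal)) : Der g α w := by
  induction h using Relation.ReflTransGen.head_induction_on with
  | refl => exact der_terminal g w
  | head h1 _ ih => exact der_of_produces h1 ih

lemma mem_language_iff_der (g : ContextFreeGrammar T) (w : List T) :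
    w ∈ g.language ↔ Der g [Symbol.nonterminal g.initial] w :=
  ⟨fun h => der_of_derives h, fun h => h.derives⟩

/-- the two possible conclusions: `w = u ++ s ++ z` -/
def Concl (L : Language T) (C : ℕ) (W : List T) (Mk : ℕ → Prop) : Prop :=
  (∃ a, ∀ t, Mk t → a ≤ t ∧ t ≤ a + C) ∨
  (∃ u s s' z, W = u ++ s ++ z ∧ u ++ s' ++ z ∈ L ∧ s'.length < s.length ∧
    ∃ t, Mk t ∧ (t ≤ u.length ∨ (u ++ s).length ≤ t))

/-- minimality of a yield -/
def MinY (g : ContextFreeGrammar T) (α : List (Symbol T g.NT)) (s : List T) : Prop :=
  ∀ s', Der g α s' → s.length ≤ s'.length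

lemma key (g : ContextFreeGrammar T) (C : ℕ)
    (hC : ∀ r ∈ g.rules, ∀ s, Der g r.output s → MinY g r.output s → s.length ≤ C)
    (W : List T) (Mk : ℕ → Prop) {α : List (Symbol T g.NT)} {s : List T} (h : Der g α s) :
    ∀ u z : List T, W = u ++ s ++ z → (∀ s', Der g α s' → u ++ s' ++ z ∈ g.language) →
    (∀ t, Mk t → u.length ≤ t ∧ t ≤ (u ++ s).length) → Concl g.language C W Mk ∨ MinY g α s := by
  induction h with
  | nil =>
    intro u z _ _ _
    right
    intro s' _
    simp
  | term t α w h ih =>
    intro u z hW hL hM
    by_cases hmin : MinY g α w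
    · right
      intro s' hs'
      cases hs' with
      | term _ _ w' h' =>
        have := hmin w' h'
        simpa using this
    · have hmin' := hmin
      unfold MinY at hmin'
      push Not at hmin'
      obtain ⟨w', hw', hlt⟩ := hmin'
      by_cases hM' : ∀ t', Mk t' → (u ++ [t]).length ≤ t' ∧ t' ≤ (u ++ [t] ++ w).length
      · rcases ih (u ++ [t]) z (by simp [hW]) (fun s' hs' => by
          have := hL (t :: s') (Der.term t _ _ hs')
          simpa using this) hM' with h1 | h1
        · exact Or.inl h1
        · exact absurd h1 hmin
      · left; right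
        push Not at hM'
        obtain ⟨t', ht', h3⟩ := hM'
        refine ⟨u ++ [t], w, w', z, by simp [hW], ?_, hlt, t', ht', ?_⟩
        · have := hL (t :: w') (Der.term t _ _ hw')
          simpa using this
        · rcases le_or_gt (u ++ [t]).length t' with h4 | h4
          · right; exact (h3 h4).le
          · left; exact h4.le
  | nont r hr α s w h1 h2 ih1 ih2 =>
    intro u z hW hL hM
    by_cases hmin1 : MinY g [Symbol.nonterminal r.input] s
    · by_cases hmin : MinY g α w
      · right
        intro s' hs'
        obtain ⟨x, y, rfl, h3, h4⟩ := Der.split [Symbol.nonterminal r.input] α hs'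
        have := hmin1 x h3
        have := hmin y h4
        simp; omega
      · have hmin' := hmin
        unfold MinY at hmin'
        push Not at hmin'
        obtain ⟨w', hw', hlt⟩ := hmin'
        by_cases hM' : ∀ t', Mk t' → (u ++ s).length ≤ t' ∧ t' ≤ (u ++ s ++ w).length
        · rcases ih2 (u ++ s) z (by simp [hW]) (fun s' hs' => by
            have := hL (s ++ s') (Der.nont r hr _ _ _ h1 hs')
            simpa using this) hM' with h1 | h1
          · exact Or.inl h1
          · exact absurd h1 hmin
        · left; right
          push Not at hM'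
          obtain ⟨t', ht', h3⟩ := hM'
          refine ⟨u ++ s, w, w', z, by simp [hW], ?_, hlt, t', ht', ?_⟩
          · have := hL (s ++ w') (Der.nont r hr _ _ _ h1 hw')
            simpa using this
          · rcases le_or_gt (u ++ s).length t' with h4 | h4
            · right; exact (h3 h4).le
            · left; exact h4.le
    · have hmin' := hmin1
      unfold MinY at hmin'
      push Not at hmin'
      obtain ⟨s1, hs1, hlt⟩ := hmin'
      have hL1 : ∀ s', Der g [Symbol.nonterminal r.input] s' → u ++ s' ++ (w ++ z) ∈ g.language := by
        intro s' hs'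
        have h5 : Der g ([Symbol.nonterminal r.input] ++ α) (s' ++ w) := hs'.append h2
        have := hL (s' ++ w) h5
        simpa using this
      by_cases hM' : ∀ t', Mk t' → u.length ≤ t' ∧ t' ≤ (u ++ s).length
      · rcases ih1 u (w ++ z) (by simp [hW]) (fun s' hs' => hL1 s' (by
          have := Der.nont r hr [] s' [] hs' Der.nil
          simpa using this)) hM' with h3 | h3
        · exact Or.inl h3
        · left; left
          have h4 := hC r hr s h1 h3
          refine ⟨u.length, fun t ht => ?_⟩
          have := hM' t ht
          simp at this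
          omega
      · left; right
        push Not at hM'
        obtain ⟨t', ht', h3⟩ := hM'
        refine ⟨u, s, s1, w ++ z, by simp [hW], hL1 s1 hs1, hlt, t', ht', ?_⟩
        rcases le_or_gt u.length t' with h4 | h4
        · right; exact (h3 h4).le
        · left; exact h4.le

/-- The window lemma for context-free languages. -/
theorem window (L : Language T) (hL : L.IsContextFree) :
    ∃ C : ℕ, ∀ W ∈ L, ∀ Mk : ℕ → Prop, (∀ t, Mk t → t ≤ W.length) → Concl L C W Mk := by
  obtain ⟨g, rfl⟩ := hL
  classical
  -- bound for the right-hand sides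
  have hb : ∃ C, ∀ r ∈ g.rules, ∀ s, Der g r.output s → MinY g r.output s → s.length ≤ C := by
    let f : ContextFreeRule T g.NT → ℕ := fun r =>
      if h : ∃ s, Der g r.output s then h.choose.length else 0
    refine ⟨g.rules.sup f, fun r hr s hs hm => ?_⟩
    have h : ∃ s, Der g r.output s := ⟨s, hs⟩
    have h1 : f r = h.choose.length := by simp only [f]; rw [dif_pos h]
    have h2 := hm h.choose h.choose_spec
    have h3 : f r ≤ g.rules.sup f := Finset.le_sup hr
    omega
  obtain ⟨C1, hC1⟩ := hb
  by_cases hne : ∃ s, Der g [Symbol.nonterminal g.initial] s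
  · obtain ⟨s0, hs0⟩ := hne
    refine ⟨max C1 s0.length, fun W hW Mk hMk => ?_⟩
    have hD := (mem_language_iff_der g W).1 hW
    rcases key g (max C1 s0.length) (fun r hr s hs hm => (hC1 r hr s hs hm).trans (le_max_left _ _))
      W Mk hD [] [] (by simp) (fun s' hs' => by
        have := (mem_language_iff_der g s').2 hs'
        simpa using this) (fun t ht => ⟨by simp, by simpa using hMk t ht⟩) with h | h
    · exact h
    · left
      refine ⟨0, fun t ht => ⟨Nat.zero_le _, ?_⟩⟩
      have h1 := hMk t ht
      have h2 := h s0 hs0
      have h3 := le_max_right C1 s0.length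
      omega
  · refine ⟨0, fun W hW => ?_⟩
    exact absurd ⟨W, (mem_language_iff_der g W).1 hW⟩ hne

end Pool.Agent.R742.FI
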