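import Mathlib

set_option autoImplicit false

/-! The free inverse monoid, rational and context-free subsets. -/

namespace Pool.Agent.R742.FI

/-- words over the alphabet `A ∪ A⁻¹` (the letter `(a, true)` is `a`, the letter `(a, false)` is
`a⁻¹`) -/
abbrev Wd (α : Type*) := FreeMonoid (α × Bool)

/-- the involution `w ↦ w⁻¹` on words -/
def winv {α : Type*} (u : Wd α) : Wd α :=
  FreeMonoid.ofList (((FreeMonoid.toList u).map (fun x => (x.1, !x.2))).reverse)

/-- the pairs `(u u⁻¹ u, u)` and `(u u⁻¹ v v⁻¹, v v⁻¹ u u⁻¹)` -/
inductive VRel {α : Type*} : Wd α → Wd α → Prop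
  | reg (u : Wd α) : VRel (u * winv u * u) u
  | comm (u v : Wd α) : VRel (u * winv u * v * winv v) (v * winv v * u * winv u)

/-- the free inverse monoid on `α` -/
abbrev FIM (α : Type*) := (conGen (VRel (α := α))).Quotient

/-- the canonical map from words to the free inverse monoid -/
def cls {α : Type*} (w : List (α × Bool)) : FIM α :=
  (conGen (VRel (α := α))).mk' (FreeMonoid.ofList w)

/-- rational subsets: images of regular languages -/
def IsRational {α : Type*} (X : Set (FIM α)) : Prop :=
  ∃ L : Language (α × Bool), L.IsRegular ∧ cls '' (L : Set (List (α × Bool))) = X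

/-- context-free subsets: images of context-free languages -/
def IsCF {α : Type*} (X : Set (FIM α)) : Prop :=
  ∃ L : Language (α × Bool), L.IsContextFree ∧ cls '' (L : Set (List (α × Bool))) = X

/-- the submonoid of fixed points -/
def Fix {α : Type*} (φ : FIM α →* FIM α) : Submonoid (FIM α) where
  carrier := {x | φ x = x}
  mul_mem' := by
    intro a b ha hb
    simp only [Set.mem_ofPred_eq] at ha hb ⊢
    rw [map_mul, ha, hb]
  one_mem' := map_one φ

end Pool.Agent.R742.FI
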