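import Pool.Agent.R742.FI.Munn

set_option autoImplicit false

/-! Finitely generated submonoids of the free inverse monoid are rational. -/

namespace Pool.Agent.R742.FI

variable {T : Type*}

/-- the star of a set of words -/
def star (W : Set (List T)) : Language T := {x | ∃ l : List (List T), x = l.flatten ∧ ∀ y ∈ l, y ∈ W}

lemma mem_star (W : Set (List T)) (x : List T) :
    x ∈ star W ↔ ∃ l : List (List T), x = l.flatten ∧ ∀ y ∈ l, y ∈ W := Iff.rfl

lemma nil_mem_star (W : Set (List T)) : [] ∈ star W := ⟨[], rfl, by simp⟩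

lemma append_mem_star {W : Set (List T)} {x y : List T} (hx : x ∈ star W) (hy : y ∈ star W) :
    x ++ y ∈ star W := by
  obtain ⟨l, rfl, h1⟩ := hx
  obtain ⟨l', rfl, h2⟩ := hy
  refine ⟨l ++ l', by simp, ?_⟩
  intro y hy
  rcases List.mem_append.1 hy with h | h
  · exact h1 y h
  · exact h2 y h

lemma mem_star_of_mem {W : Set (List T)} {x : List T} (hx : x ∈ W) : x ∈ star W :=
  ⟨[x], by simp, by simpa using hx⟩

/-- the possible remainders after reading `x` -/
def Rem (W : Set (List T)) (x : List T) : Set (List T) :=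
  {s | ∃ x' p, x = x' ++ p ∧ x' ∈ star W ∧ (p ++ s ∈ W ∨ p ++ s = [])}

lemma quot_aux (W : Set (List T)) (l : List (List T)) (hl : ∀ y ∈ l, y ∈ W) :
    ∀ x y : List T, x ++ y = l.flatten → ∃ s ∈ Rem W x, ∃ v ∈ star W, y = s ++ v := by
  induction l with
  | nil =>
    intro x y h
    simp at h
    exact ⟨[], ⟨[], [], by simp [h.1], nil_mem_star W, Or.inr rfl⟩, [], nil_mem_star W, by simp [h.2]⟩
  | cons w l ih =>
    intro x y h
    rw [List.flatten_cons] at h
    have hw : w ∈ W := hl w (by simp)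
    rcases List.append_eq_append_iff.1 h with ⟨c, h1, h2⟩ | ⟨c, h1, h2⟩
    · exact ⟨c, ⟨[], x, rfl, nil_mem_star W, Or.inl (h1 ▸ hw)⟩, l.flatten,
        ⟨l, rfl, fun y hy => hl y (by simp [hy])⟩, h2⟩
    · obtain ⟨s, ⟨x', p, h3, h4, h5⟩, v, hv, rfl⟩ :=
        ih (fun y hy => hl y (by simp [hy])) c y h2.symm
      refine ⟨s, ⟨w ++ x', p, by rw [h1, h3]; simp, append_mem_star (mem_star_of_mem hw) h4, h5⟩,
        v, hv, rfl⟩

lemma quot_eq (W : Set (List T)) (x : List T) :
    (star W).leftQuotient x = ({y | ∃ s ∈ Rem W x, ∃ v ∈ star W, y = s ++ v} : Language T) := by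
  apply Set.ext
  intro y
  constructor
  · intro h
    obtain ⟨l, h1, h2⟩ := (show x ++ y ∈ star W from h)
    exact quot_aux W l h2 x y h1
  · rintro ⟨s, ⟨x', p, rfl, h1, h2⟩, v, hv, rfl⟩
    show _ ∈ star W
    have e : x' ++ p ++ (s ++ v) = x' ++ (p ++ s) ++ v := by simp
    rw [e]
    refine append_mem_star (append_mem_star h1 ?_) hv
    rcases h2 with h2 | h2
    · exact mem_star_of_mem h2
    · rw [h2]; exact nil_mem_star W

lemma rem_subset (W : Set (List T)) (x : List T) :
    Rem W x ⊆ (⋃ w ∈ W, {s | s ∈ w.tails}) ∪ {[]} := by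
  rintro s ⟨x', p, rfl, h1, h2 | h2⟩
  · left
    simp only [Set.mem_iUnion, exists_prop]
    refine ⟨p ++ s, h2, ?_⟩
    show s ∈ (p ++ s).tails
    rw [List.mem_tails]
    exact List.suffix_append p s
  · right
    exact (List.append_eq_nil_iff.1 h2).2

theorem star_regular (W : Set (List T)) (hW : W.Finite) : (star W).IsRegular := by
  apply Language.IsRegular.of_finite_range_leftQuotient
  have hfin : ((⋃ w ∈ W, {s : List T | s ∈ w.tails}) ∪ {[]}).Finite := by
    apply Set.Finite.union _ (Set.finite_singleton _)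
    apply hW.biUnion
    intro w _
    exact List.finite_toSet w.tails
  apply (hfin.finite_subsets.image
    (fun S : Set (List T) => ({y | ∃ s ∈ S, ∃ v ∈ star W, y = s ++ v} : Language T))).subset
  rintro _ ⟨x, rfl⟩
  exact ⟨Rem W x, rem_subset W x, (quot_eq W x).symm⟩

variable {α : Type*}

lemma cls_flatten (l : List (List (α × Bool))) : cls l.flatten = (l.map cls).prod := by
  induction l with
  | nil => simp [cls_nil]
  | cons a l ih => simp [cls_append, ih]

/-- finitely generated submonoids are rational -/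
theorem rational_of_fg (S : Submonoid (FIM α)) (h : S.FG) : IsRational (S : Set (FIM α)) := by
  obtain ⟨X, hX, hfin⟩ := (Submonoid.fg_iff S).1 h
  have hsec : ∀ x : FIM α, ∃ w, cls w = x := cls_surj
  choose f hf using hsec
  refine ⟨star (f '' X), star_regular _ (hfin.image f), ?_⟩
  rw [← hX]
  apply Set.Subset.antisymm
  · rintro _ ⟨w, ⟨l, rfl, hl⟩, rfl⟩
    rw [cls_flatten]
    apply Submonoid.list_prod_mem
    intro y hy
    obtain ⟨v, hv, rfl⟩ := List.mem_map.1 hy
    obtain ⟨x, hx, rfl⟩ := hl v hv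
    rw [hf]
    exact Submonoid.subset_closure hx
  · intro x hx
    induction hx using Submonoid.closure_induction with
    | mem x hx => exact ⟨f x, mem_star_of_mem ⟨x, hx, rfl⟩, hf x⟩
    | one => exact ⟨[], nil_mem_star _, cls_nil⟩
    | mul x y _ _ hx hy =>
      obtain ⟨u, hu, rfl⟩ := hx
      obtain ⟨v, hv, rfl⟩ := hy
      exact ⟨u ++ v, append_mem_star hu hv, cls_append u v⟩

end Pool.Agent.R742.FI
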