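import Pool.Agent.R742.FI.Basic
import Pool.Agent.R742.FI.Reg
import Pool.Agent.R742.FI.Cfg

set_option autoImplicit false

/-! Context-free fixed point submonoids of free inverse monoids are finitely generated. -/

namespace Pool.Agent.R742.FI

open Pointwise
open FreeGroup (mk invRev inv_mk invRev_append invRev_invRev)

variable {α : Type*} (φ : FIM α →* FIM α)

lemma iter_fix {x : FIM α} (hx : x ∈ Fix φ) (n : ℕ) : φ^[n] x = x :=
  Function.iterate_fixed hx n

/-- letters with a finite orbit -/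
def B : Set (α × Bool) := {l | (Set.range (fun n : ℕ => φ^[n] (cls [l]))).Finite}

lemma letters_of_fix {w : List (α × Bool)} (h : cls w ∈ Fix φ) : ∀ l ∈ w, l ∈ B φ := by
  intro l hl
  obtain ⟨u, v, rfl⟩ := List.append_of_mem hl
  apply (factors_finite (cls (u ++ l :: v))).subset
  rintro _ ⟨n, rfl⟩
  refine ⟨φ^[n] (cls u), φ^[n] (cls v), ?_⟩
  rw [← iterate_map_mul, ← iterate_map_mul, ← cls_append, ← cls_append]
  have : u ++ [l] ++ v = u ++ l :: v := by simp
  rw [this, iter_fix φ h]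

lemma exists_q [Finite α] : ∃ q : ℕ, 1 ≤ q ∧ ∀ l ∈ B φ, φ^[q] (φ^[q] (cls [l])) = φ^[q] (cls [l]) := by
  classical
  have hB : (B φ).Finite := Set.toFinite _
  let F : ℕ → (B φ → FIM α) := fun n l => φ^[n] (cls [l.1])
  have hF : (Set.range F).Finite := by
    have : Finite (B φ) := hB
    apply (Set.Finite.pi (t := fun l : B φ => Set.range (fun n : ℕ => φ^[n] (cls [l.1])))
      (fun l => l.2)).subset
    rintro _ ⟨n, rfl⟩ l _
    exact ⟨n, rfl⟩
  have : Finite (Set.range F) := hF
  obtain ⟨n, m, hne, heq⟩ := Finite.exists_ne_map_eq_of_infinite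
    (fun n : ℕ => (⟨F n, n, rfl⟩ : Set.range F))
  have heq' : F n = F m := congrArg Subtype.val heq
  obtain ⟨n, m, hlt, heq'⟩ : ∃ n m, n < m ∧ F n = F m := by
    rcases lt_or_gt_of_ne hne with h | h
    · exact ⟨n, m, h, heq'⟩
    · exact ⟨m, n, h, heq'.symm⟩
  obtain ⟨d, hd⟩ := Nat.exists_eq_add_of_lt hlt
  have hd' : m = n + (d + 1) := by omega
  have hper : ∀ l : B φ, ∀ k j, n ≤ j → φ^[j + k * (d + 1)] (cls [l.1]) = φ^[j] (cls [l.1]) := by
    intro l k
    induction k with
    | zero => intro j _; simp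
    | succ k ih =>
      intro j hj
      obtain ⟨i, rfl⟩ := Nat.exists_eq_add_of_le hj
      have e1 : n + i + (k + 1) * (d + 1) = (i + k * (d + 1)) + m := by rw [hd']; ring
      have e2 : n + i + k * (d + 1) = (i + k * (d + 1)) + n := by ring
      have e3 : φ^[m] (cls [l.1]) = φ^[n] (cls [l.1]) := (congrFun heq' l).symm
      rw [← ih (n + i) hj, e1, e2, Function.iterate_add_apply, e3, ← Function.iterate_add_apply]
  refine ⟨(n + 1) * (d + 1), Nat.one_le_iff_ne_zero.2 (by positivity), fun l hl => ?_⟩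
  rw [← Function.iterate_add_apply]
  exact hper ⟨l, hl⟩ (n + 1) _ (by nlinarith)

lemma iter_words {q : ℕ} (hq : ∀ l ∈ B φ, φ^[q] (φ^[q] (cls [l])) = φ^[q] (cls [l]))
    (w : List (α × Bool)) (hw : ∀ l ∈ w, l ∈ B φ) : φ^[q] (φ^[q] (cls w)) = φ^[q] (cls w) := by
  induction w with
  | nil =>
    rw [cls_nil]
    have h1 : ∀ n, φ^[n] (1 : FIM α) = 1 := fun n => iter_fix φ (Fix φ).one_mem n
    rw [h1, h1]
  | cons l w ih =>
    have : l :: w = [l] ++ w := rfl
    rw [this, cls_append, iterate_map_mul, iterate_map_mul, hq l (hw l (by simp)),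
      ih (fun l' h' => hw l' (by simp [h']))]

/-- the union of the Munn trees along the orbit -/
def U (y : FIM α) : Set (FreeGroup α) := ⋃ k : ℕ, tr (φ^[k] y)

lemma U_map {q : ℕ} (hq : 1 ≤ q) {y : FIM α} (hy : φ^[q] y = y) : U φ (φ y) = U φ y := by
  unfold U
  apply Set.Subset.antisymm
  · apply Set.iUnion_subset
    intro k
    rw [← Function.iterate_succ_apply]
    exact Set.subset_iUnion (fun k => tr (φ^[k] y)) (k + 1)
  · apply Set.iUnion_subset
    intro k
    have : φ^[k] y = φ^[k + (q - 1)] (φ y) := by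
      rw [← Function.iterate_succ_apply]
      have : (k + (q - 1)).succ = k + q := by omega
      rw [this, Function.iterate_add_apply, hy]
    rw [this]
    exact Set.subset_iUnion (fun k => tr (φ^[k] (φ y))) (k + (q - 1))

/-- the product of the idempotents along the orbit -/
noncomputable def I (q : ℕ) (y : FIM α) : FIM α := ((List.range q).map (fun k => E (φ^[k] y))).prod

lemma prod_E_gp (l : List (FIM α)) : gp (l.map E).prod = 1 := by
  induction l with
  | nil => simp [gp_one]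
  | cons a l ih => simp [gp_mul, gp_E, ih]

lemma prod_E_tr (l : List (FIM α)) (x : FreeGroup α) :
    x ∈ tr (l.map E).prod ↔ x = 1 ∨ ∃ z ∈ l, x ∈ tr z := by
  induction l with
  | nil => simp [tr_one]
  | cons a l ih =>
    simp only [List.map_cons, List.prod_cons, tr_mul, gp_E, one_smul, tr_E, Set.mem_union, ih,
      List.mem_cons, exists_eq_or_imp]
    constructor
    · rintro (h | h | h)
      · exact Or.inr (Or.inl h)
      · exact Or.inl h
      · exact Or.inr (Or.inr h)
    · rintro (h | h | h)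
      · exact Or.inr (Or.inl h)
      · exact Or.inl h
      · exact Or.inr (Or.inr h)

lemma I_eq (q : ℕ) (y : FIM α) : I φ q y = (((List.range q).map (fun k => φ^[k] y)).map E).prod := by
  unfold I
  rw [List.map_map]
  rfl

lemma gp_I (q : ℕ) (y : FIM α) : gp (I φ q y) = 1 := by
  rw [I_eq, prod_E_gp]

lemma tr_I {q : ℕ} (hq : 1 ≤ q) {y : FIM α} (hy : φ^[q] y = y) : tr (I φ q y) = U φ y := by
  ext x
  rw [I_eq, prod_E_tr]
  unfold U
  rw [Set.mem_iUnion]
  constructor
  · rintro (rfl | ⟨z, hz, hx⟩)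
    · exact ⟨0, one_mem_tr _⟩
    · obtain ⟨k, _, rfl⟩ := List.mem_map.1 hz
      exact ⟨k, hx⟩
  · rintro ⟨k, hk⟩
    right
    refine ⟨φ^[k % q] y, List.mem_map.2 ⟨k % q, List.mem_range.2 (Nat.mod_lt _ (by omega)), rfl⟩, ?_⟩
    have : φ^[k] y = φ^[k % q] y := by
      conv_lhs => rw [← Nat.mod_add_div k q]
      rw [Function.iterate_add_apply, Function.iterate_mul, Function.iterate_fixed hy]
    rwa [← this]

lemma map_I (q : ℕ) (y : FIM α) : φ (I φ q y) = I φ q (φ y) := by
  unfold I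
  rw [map_list_prod, List.map_map]
  congr 1
  apply List.map_congr_left
  intro k _
  simp only [Function.comp_apply]
  rw [map_E]
  congr 1
  exact (Function.iterate_succ_apply' φ k y).symm.trans (Function.iterate_succ_apply φ k y)

lemma I_fix {q : ℕ} (hq : 1 ≤ q) {y : FIM α} (hy : φ^[q] y = y) : I φ q y ∈ Fix φ := by
  show φ (I φ q y) = I φ q y
  rw [map_I]
  have hy' : φ^[q] (φ y) = φ y := by
    rw [← Function.iterate_succ_apply, Function.iterate_succ_apply', hy]
  apply ext'
  · rw [tr_I φ hq hy', tr_I φ hq hy, U_map φ hq hy]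
  · rw [gp_I, gp_I]

/-- the symmetrised element -/
noncomputable def hat (q : ℕ) (y : FIM α) : FIM α := I φ q y * y

lemma gp_hat (q : ℕ) (y : FIM α) : gp (hat φ q y) = gp y := by
  unfold hat
  rw [gp_mul, gp_I, one_mul]

lemma tr_sub_U (y : FIM α) (k : ℕ) : tr (φ^[k] y) ⊆ U φ y :=
  Set.subset_iUnion (fun k => tr (φ^[k] y)) k

lemma tr_hat {q : ℕ} (hq : 1 ≤ q) {y : FIM α} (hy : φ^[q] y = y) : tr (hat φ q y) = U φ y := by
  unfold hat
  rw [tr_mul, gp_I, one_smul, tr_I φ hq hy]
  exact Set.union_eq_left.2 (tr_sub_U φ y 0)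

lemma hat_fix {q : ℕ} (hq : 1 ≤ q) {y : FIM α} (hy : φ^[q] y = y) (hg : Ph φ (gp y) = gp y) :
    hat φ q y ∈ Fix φ := by
  show φ (hat φ q y) = hat φ q y
  have h1 : φ (I φ q y) = I φ q y := I_fix φ hq hy
  apply ext'
  · rw [tr_hat φ hq hy]
    unfold hat
    rw [map_mul, h1, tr_mul, gp_I, one_smul, tr_I φ hq hy]
    exact Set.union_eq_left.2 (tr_sub_U φ y 1)
  · rw [gp_hat]
    unfold hat
    rw [map_mul, h1, gp_mul, gp_I, one_mul, gp_map, hg]

/-- the case where the induced action is trivial -/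
lemma hat_prod {q : ℕ} (hq : 1 ≤ q) (hqB : ∀ l ∈ B φ, φ^[q] (φ^[q] (cls [l])) = φ^[q] (cls [l]))
    (htriv : ∀ l ∈ B φ, Ph φ (gp (φ^[q] (cls [l]))) = gp (φ^[q] (cls [l])))
    (w : List (α × Bool)) (hw : ∀ l ∈ w, l ∈ B φ) :
    tr (w.map (fun l => hat φ q (φ^[q] (cls [l])))).prod = U φ (φ^[q] (cls w)) ∧
    gp (w.map (fun l => hat φ q (φ^[q] (cls [l])))).prod = gp (φ^[q] (cls w)) := by
  induction w with
  | nil =>
    have h1 : ∀ n, φ^[n] (1 : FIM α) = 1 := fun n => iter_fix φ (Fix φ).one_mem n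
    simp only [List.map_nil, List.prod_nil, cls_nil, h1, and_true, tr_one]
    unfold U
    simp only [h1, tr_one, Set.iUnion_const]
  | cons l w ih =>
    obtain ⟨ih1, ih2⟩ := ih (fun l' h' => hw l' (by simp [h']))
    have hl := hw l (by simp)
    have e : l :: w = [l] ++ w := rfl
    simp only [List.map_cons, List.prod_cons]
    rw [tr_mul, gp_mul, ih1, ih2, gp_hat, tr_hat φ hq (hqB l hl), e, cls_append, iterate_map_mul,
      gp_mul]
    refine ⟨?_, rfl⟩
    unfold U
    rw [Set.smul_set_iUnion, ← Set.iUnion_union_distrib]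
    apply Set.iUnion_congr
    intro k
    have hk : gp (φ^[k] (φ^[q] (cls [l]))) = gp (φ^[q] (cls [l])) := by
      rw [gp_iter]
      exact Function.iterate_fixed (htriv l hl) k
    rw [iterate_map_mul φ k, tr_mul, hk]

lemma fg_of_triv [Finite α] {q : ℕ} (hq : 1 ≤ q)
    (hqB : ∀ l ∈ B φ, φ^[q] (φ^[q] (cls [l])) = φ^[q] (cls [l]))
    (htriv : ∀ l ∈ B φ, Ph φ (gp (φ^[q] (cls [l]))) = gp (φ^[q] (cls [l]))) : (Fix φ).FG := by
  rw [Submonoid.fg_iff]
  refine ⟨(fun l => hat φ q (φ^[q] (cls [l]))) '' (B φ), ?_, (Set.toFinite (B φ)).image _⟩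
  apply le_antisymm
  · rw [Submonoid.closure_le]
    rintro _ ⟨l, hl, rfl⟩
    exact hat_fix φ hq (hqB l hl) (htriv l hl)
  · intro x hx
    obtain ⟨w, rfl⟩ := cls_surj x
    have hw := letters_of_fix φ hx
    obtain ⟨h1, h2⟩ := hat_prod φ hq hqB htriv w hw
    have h3 : φ^[q] (cls w) = cls w := iter_fix φ hx q
    have h4 : U φ (cls w) = tr (cls w) := by
      unfold U
      simp only [iter_fix φ hx, Set.iUnion_const]
    rw [h3] at h1 h2
    rw [h4] at h1
    rw [← ext' h1 h2]
    apply Submonoid.list_prod_mem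
    intro y hy
    obtain ⟨l, hl, rfl⟩ := List.mem_map.1 hy
    exact Submonoid.subset_closure ⟨l, hw l hl, rfl⟩

section far

variable [DecidableEq α]

/-- far vertices -/
def Far (q C : ℕ) (p : FreeGroup α) : Prop :=
  ∃ k : ℕ, C < (((Ph φ)^[q + k] p)⁻¹ * (Ph φ)^[q + k + 1] p).norm

lemma far_mul {q C : ℕ} {c : FreeGroup α} (hc : Ph φ c = c) (p : FreeGroup α) :
    Far φ q C (c * p) ↔ Far φ q C p := by
  unfold Far
  have : ∀ k, (((Ph φ)^[q + k] (c * p))⁻¹ * (Ph φ)^[q + k + 1] (c * p)) =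
      (((Ph φ)^[q + k] p)⁻¹ * (Ph φ)^[q + k + 1] p) := by
    intro k
    rw [iterate_map_mul, iterate_map_mul, Function.iterate_fixed hc, Function.iterate_fixed hc]
    group
  simp only [this]

lemma far_iter {q C : ℕ} (hq : 1 ≤ q) {p : FreeGroup α}
    (hp : (Ph φ)^[q] ((Ph φ)^[q] p) = (Ph φ)^[q] p) (h : Far φ q C p) (j : ℕ) :
    Far φ q C ((Ph φ)^[j] p) := by
  obtain ⟨k, hk⟩ := h
  have hper : ∀ i n, (Ph φ)^[q + i + q * n] p = (Ph φ)^[q + i] p := by
    intro i n
    have e : q + i + q * n = i + (q * n + q) := by ring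
    rw [e, Function.iterate_add_apply, Function.iterate_add_apply, Function.iterate_mul,
      Function.iterate_fixed hp, ← Function.iterate_add_apply, add_comm i q]
  refine ⟨k + (q * j - j), ?_⟩
  have hj : j ≤ q * j := Nat.le_mul_of_pos_left j (by omega)
  rw [← Function.iterate_add_apply, ← Function.iterate_add_apply]
  have e1 : q + (k + (q * j - j)) + j = q + k + q * j := by omega
  have e2 : q + (k + (q * j - j)) + 1 + j = q + (k + 1) + q * j := by omega
  rw [e1, e2, hper, hper, ← add_assoc]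
  exact hk

lemma norm_seg (w : List (α × Bool)) {i j : ℕ} (h : i ≤ j) :
    ((mk (w.take i))⁻¹ * mk (w.take j) : FreeGroup α).norm ≤ j - i := by
  have e : w.take j = w.take i ++ (w.take j).drop i := by
    conv_lhs => rw [← List.take_append_drop i (w.take j)]
    rw [List.take_take, min_eq_left h]
  have e2 : ((mk (w.take i))⁻¹ * mk (w.take j) : FreeGroup α) = mk ((w.take j).drop i) := by
    conv_lhs => rw [e, mk_app]
    rw [inv_mul_cancel_left]
  rw [e2]
  refine FreeGroup.norm_mk_le.trans ?_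
  rw [List.length_drop, List.length_take]
  omega

end far

lemma no_far [DecidableEq α] {L : Language (α × Bool)} (hL : L.IsContextFree)
    (himg : ∀ w ∈ L, cls w ∈ Fix φ) {q : ℕ} (hq : 1 ≤ q)
    (hqB : ∀ l ∈ B φ, φ^[q] (φ^[q] (cls [l])) = φ^[q] (cls [l])) :
    ∃ C, ∀ w ∈ L, ∀ p ∈ Pr w, ¬ Far φ q C p := by
  obtain ⟨C, hC⟩ := window L hL
  refine ⟨C, ?_⟩
  by_contra hcon
  push Not at hcon
  -- shortest word with a far vertex
  have hex : ∃ n, ∃ w ∈ L, w.length = n ∧ ∃ p ∈ Pr w, Far φ q C p := by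
    obtain ⟨w, hw, p, hp, hf⟩ := hcon
    exact ⟨w.length, w, hw, rfl, p, hp, hf⟩
  classical
  obtain ⟨w, hw, hlen, p, hp, hf⟩ := Nat.find_spec hex
  have hmin : ∀ w' ∈ L, w'.length < w.length → ∀ p ∈ Pr w', ¬ Far φ q C p := by
    intro w' hw' hlt p hp hf
    refine Nat.find_min hex (m := w'.length) (by omega) ⟨w', hw', rfl, p, hp, hf⟩
  have hfix := himg w hw
  rcases hC w hw (fun t => t ≤ w.length ∧ Far φ q C (mk (w.take t))) (fun t ht => ht.1) with
    ⟨a, ha⟩ | ⟨u, s, s', z, hw1, hw2, hlt, t, ⟨ht1, ht2⟩, ht3⟩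
  · -- all far vertices in a window
    have hmark : ∀ p ∈ Pr w, Far φ q C p → ∃ t, a ≤ t ∧ t ≤ a + C ∧ p = mk (w.take t) := by
      intro p hp hf
      obtain ⟨u, v, huv, rfl⟩ := mem_Pr.1 hp
      have e : w.take u.length = u := by rw [huv]; simp
      have := ha u.length ⟨by rw [huv]; simp, by rw [e]; exact hf⟩
      exact ⟨u.length, this.1, this.2, by rw [e]⟩
    have hper : (Ph φ)^[q] ((Ph φ)^[q] p) = (Ph φ)^[q] p := by
      obtain ⟨u, v, huv, rfl⟩ := mem_Pr.1 hp
      have hB := letters_of_fix φ hfix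
      have h1 := iter_words φ hqB u (fun l hl => hB l (by rw [huv]; simp [hl]))
      have h2 := congrArg gp h1
      rw [gp_iter, gp_iter, gp_cls] at h2
      exact h2
    have hp' : p ∈ tr (cls w) := by rw [tr_cls]; exact hp
    obtain ⟨k, hk⟩ := hf
    have m1 := ph_iter_mem φ hfix hp' (q + k)
    have m2 := ph_iter_mem φ hfix hp' (q + k + 1)
    rw [tr_cls] at m1 m2
    obtain ⟨t1, a1, b1, e1⟩ := hmark _ m1 (far_iter φ hq hper ⟨k, hk⟩ _)
    obtain ⟨t2, a2, b2, e2⟩ := hmark _ m2 (far_iter φ hq hper ⟨k, hk⟩ _)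
    rw [e1, e2] at hk
    rcases le_total t1 t2 with h | h
    · have := norm_seg w h
      omega
    · have := norm_seg w h
      rw [← FreeGroup.norm_inv_eq] at hk
      have e : ((mk (w.take t1))⁻¹ * mk (w.take t2) : FreeGroup α)⁻¹ =
        (mk (w.take t2))⁻¹ * mk (w.take t1) := by group
      rw [e] at hk
      omega
  · -- replacement
    have hlt' : (u ++ s' ++ z).length < w.length := by
      rw [hw1]; simp; omega
    have hnf := hmin _ hw2 hlt'
    rcases ht3 with ht3 | ht3
    · apply hnf (mk (w.take t)) _ ht2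
      rw [hw1]
      refine mem_Pr.2 ⟨u.take t, u.drop t ++ s' ++ z, ?_, ?_⟩
      · simp only [← List.append_assoc, List.take_append_drop]
      · rw [List.append_assoc, List.take_append_of_le_length ht3]
    · -- after the replaced factor
      have e0 : w.take t = u ++ s ++ z.take (t - (u ++ s).length) := by
        rw [hw1, List.take_append, List.take_of_length_le ht3]
      set z1 := z.take (t - (u ++ s).length) with hz1
      set z2 := z.drop (t - (u ++ s).length) with hz2
      have hz : z = z1 ++ z2 := (List.take_append_drop _ _).symm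
      have g1 : Ph φ (mk w) = mk w := by
        have h1 : φ (cls w) = cls w := hfix
        have := congrArg gp h1
        rwa [gp_map, gp_cls] at this
      have g2 : Ph φ (mk (u ++ s' ++ z)) = mk (u ++ s' ++ z) := by
        have h1 : φ (cls (u ++ s' ++ z)) = cls (u ++ s' ++ z) := himg _ hw2
        have := congrArg gp h1
        rwa [gp_map, gp_cls] at this
      have k1 : (mk (w.take t) : FreeGroup α) = mk w * (mk z2)⁻¹ := by
        rw [e0, hw1, hz]
        simp only [mk_app]
        group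
      have k2 : (mk (u ++ s' ++ z1) : FreeGroup α) = mk (u ++ s' ++ z) * (mk z2)⁻¹ := by
        rw [hz]
        simp only [mk_app]
        group
      rw [k1, far_mul φ g1] at ht2
      refine hnf (mk (u ++ s' ++ z1)) (mem_Pr.2 ⟨u ++ s' ++ z1, z2, ?_, rfl⟩) ?_
      · rw [hz]; simp
      · rw [k2, far_mul φ g2]
        exact ht2

/-- **Main theorem.** If the fixed point submonoid of an endomorphism of a free inverse monoid of
finite rank is context-free, then it is finitely generated. -/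
theorem fg_of_cf [Finite α] (h : IsCF (Fix φ : Set (FIM α))) : (Fix φ).FG := by
  classical
  obtain ⟨q, hq, hqB⟩ := exists_q φ
  by_cases htriv : ∀ l ∈ B φ, Ph φ (gp (φ^[q] (cls [l]))) = gp (φ^[q] (cls [l]))
  · exact fg_of_triv φ hq hqB htriv
  · exfalso
    push Not at htriv
    obtain ⟨l, hl, hne⟩ := htriv
    obtain ⟨L, hL, himg⟩ := h
    have himg' : ∀ w ∈ L, cls w ∈ Fix φ := by
      intro w hw
      have : cls w ∈ cls '' (L : Set (List (α × Bool))) := ⟨w, hw, rfl⟩
      rw [himg] at this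
      exact this
    obtain ⟨C, hC⟩ := no_far φ hL himg' hq hqB
    set y := φ^[q] (cls [l]) with hy
    have hyq : φ^[q] y = y := hqB l hl
    set g := gp y with hg
    have hbd : ∀ n : ℕ, ((g ^ n)⁻¹ * (Ph φ g) ^ n).norm ≤ C := by
      intro n
      have hyn : φ^[q] (y ^ n) = y ^ n := by rw [iterate_map_pow, hyq]
      have hz := I_fix φ hq hyn
      have hz' : I φ q (y ^ n) ∈ cls '' (L : Set (List (α × Bool))) := by rw [himg]; exact hz
      obtain ⟨w, hw, hwz⟩ := hz'
      have hmem : g ^ n ∈ Pr w := by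
        rw [← tr_cls, hwz, tr_I φ hq hyn]
        apply tr_sub_U φ (y ^ n) 0
        have := gp_mem_tr (y ^ n)
        rwa [gp_pow] at this
      have h1 := hC w hw (g ^ n) hmem
      unfold Far at h1
      push Not at h1
      have h2 := h1 0
      have hgq : (Ph φ)^[q] g = g := by
        rw [hg, ← gp_iter, hyq]
      rw [add_zero, Function.iterate_succ_apply'] at h2
      rw [iterate_map_pow, hgq, map_pow] at h2
      exact h2
    -- pigeonhole
    have hfin : {x : FreeGroup α | x.norm ≤ C}.Finite := by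
      refine Set.Finite.of_finite_image (f := FreeGroup.toWord)
        ((List.finite_length_le (α × Bool) C).subset ?_) (FreeGroup.toWord_injective.injOn)
      rintro _ ⟨x, hx, rfl⟩
      exact hx
    have : Finite {x : FreeGroup α | x.norm ≤ C} := hfin
    obtain ⟨n, m, hnm, heq⟩ := Finite.exists_ne_map_eq_of_infinite
      (fun n : ℕ => (⟨(g ^ n)⁻¹ * (Ph φ g) ^ n, hbd n⟩ : {x : FreeGroup α | x.norm ≤ C}))
    have heq' : (g ^ n)⁻¹ * (Ph φ g) ^ n = (g ^ m)⁻¹ * (Ph φ g) ^ m := congrArg Subtype.val heq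
    have main : ∀ n m : ℕ, n < m → (g ^ n)⁻¹ * (Ph φ g) ^ n = (g ^ m)⁻¹ * (Ph φ g) ^ m →
        Ph φ g = g := by
      intro n m hnm h
      obtain ⟨d, rfl⟩ := Nat.exists_eq_add_of_lt hnm
      rw [add_assoc, pow_add g, pow_add (Ph φ g)] at h
      have h2 : g ^ (d + 1) = (Ph φ g) ^ (d + 1) := by
        have h3 : g ^ n * g ^ (d + 1) = g ^ (d + 1) * g ^ n := by
          rw [← pow_add, ← pow_add, add_comm]
        have h4 : (Ph φ g) ^ n * (Ph φ g) ^ (d + 1) = (Ph φ g) ^ (d + 1) * (Ph φ g) ^ n := by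
          rw [← pow_add, ← pow_add, add_comm]
        rw [h3, h4, mul_inv_rev] at h
        have h5 : (g ^ n)⁻¹ * (Ph φ g) ^ n =
            (g ^ n)⁻¹ * ((g ^ (d + 1))⁻¹ * (Ph φ g) ^ (d + 1)) * (Ph φ g) ^ n := by
          rw [h]; group
        have h6 : (1 : FreeGroup α) = (g ^ (d + 1))⁻¹ * (Ph φ g) ^ (d + 1) := by
          have h7 : (g ^ n)⁻¹ * 1 * (Ph φ g) ^ n =
            (g ^ n)⁻¹ * ((g ^ (d + 1))⁻¹ * (Ph φ g) ^ (d + 1)) * (Ph φ g) ^ n := by
            rw [mul_one]; exact h5
          exact mul_left_cancel (mul_right_cancel h7)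
        exact (inv_mul_eq_one.1 h6.symm)
      exact (IsMulTorsionFree.pow_left_injective (Nat.succ_ne_zero d) h2).symm
    rcases lt_or_gt_of_ne hnm with h | h
    · exact hne (main n m h heq')
    · exact hne (main m n h heq'.symm)

end Pool.Agent.R742.FI
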