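import Pool.Agent.R742.FI.Defs

set_option autoImplicit false

/-! Munn's theorem for the free inverse monoid. -/

namespace Pool.Agent.R742.FI

open Pointwise FreeGroup

variable {α : Type*}

/-- the set of vertices visited by the path labelled `w` -/
def Pr (w : List (α × Bool)) : Set (FreeGroup α) :=
  Set.range (fun i : ℕ => FreeGroup.mk (w.take i))

lemma mem_Pr {w : List (α × Bool)} {x : FreeGroup α} :
    x ∈ Pr w ↔ ∃ u v, w = u ++ v ∧ x = mk u := by
  constructor
  · rintro ⟨i, rfl⟩
    exact ⟨w.take i, w.drop i, (List.take_append_drop i w).symm, rfl⟩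
  · rintro ⟨u, v, rfl, rfl⟩
    exact ⟨u.length, by simp⟩

lemma one_mem_Pr (w : List (α × Bool)) : (1 : FreeGroup α) ∈ Pr w :=
  mem_Pr.2 ⟨[], w, rfl, rfl⟩

lemma mk_mem_Pr (w : List (α × Bool)) : mk w ∈ Pr w :=
  mem_Pr.2 ⟨w, [], by simp, rfl⟩

@[simp] lemma Pr_nil : Pr ([] : List (α × Bool)) = {1} := by
  ext x
  rw [mem_Pr]
  constructor
  · rintro ⟨u, v, h, rfl⟩
    rw [(List.append_eq_nil_iff.1 h.symm).1]
    rfl
  · rintro rfl
    exact ⟨[], [], rfl, rfl⟩

lemma mk_app (u v : List (α × Bool)) : (mk (u ++ v) : FreeGroup α) = mk u * mk v := rfl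

lemma Pr_append (u v : List (α × Bool)) : Pr (u ++ v) = Pr u ∪ mk u • Pr v := by
  ext x
  constructor
  · rw [mem_Pr]
    rintro ⟨a, b, h, rfl⟩
    rcases List.append_eq_append_iff.1 h with ⟨c, rfl, rfl⟩ | ⟨c, rfl, rfl⟩
    · right
      rw [mk_app]
      exact Set.smul_mem_smul_set (mem_Pr.2 ⟨c, b, rfl, rfl⟩)
    · left
      exact mem_Pr.2 ⟨a, c, rfl, rfl⟩
  · rintro (h | h)
    · obtain ⟨a, b, rfl, rfl⟩ := mem_Pr.1 h
      exact mem_Pr.2 ⟨a, b ++ v, by simp, rfl⟩
    · obtain ⟨y, hy, rfl⟩ := h
      obtain ⟨a, b, rfl, rfl⟩ := mem_Pr.1 hy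
      exact mem_Pr.2 ⟨u ++ a, b, by simp, rfl⟩

lemma Pr_invRev (w : List (α × Bool)) : Pr (invRev w) = (mk w)⁻¹ • Pr w := by
  ext x
  rw [Set.mem_inv_smul_set_iff, mem_Pr, mem_Pr]
  constructor
  · rintro ⟨u, v, h, rfl⟩
    have h' : w = invRev v ++ invRev u := by
      rw [← invRev_append, ← h, invRev_invRev]
    refine ⟨invRev v, invRev u, h', ?_⟩
    rw [h', mk_app, ← inv_mk (L := u), smul_eq_mul]
    group
  · rintro ⟨u, v, rfl, h⟩
    refine ⟨invRev v, invRev u, invRev_append, ?_⟩
    rw [← inv_mk]
    rw [mk_app, smul_eq_mul] at h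
    have h2 : mk v * x = 1 := by
      rw [mul_assoc] at h
      exact mul_eq_left.1 h
    exact eq_inv_of_mul_eq_one_right h2

lemma Pr_finite (w : List (α × Bool)) : (Pr w).Finite := by
  apply ((Finset.range (w.length + 1)).finite_toSet.image
    (fun i : ℕ => (FreeGroup.mk (w.take i) : FreeGroup α))).subset
  rintro x ⟨i, rfl⟩
  rcases le_or_gt i w.length with h | h
  · exact ⟨i, by simp; omega, rfl⟩
  · refine ⟨w.length, by simp, ?_⟩
    simp only
    rw [List.take_of_length_le h.le, List.take_of_length_le le_rfl]

/-- the congruence of having the same Munn tree and the same value -/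
def munnCon (α : Type*) : Con (Wd α) where
  r a b := Pr (FreeMonoid.toList a) = Pr (FreeMonoid.toList b) ∧
    (mk (FreeMonoid.toList a) : FreeGroup α) = mk (FreeMonoid.toList b)
  iseqv :=
    { refl := fun a => ⟨rfl, rfl⟩
      symm := fun h => ⟨h.1.symm, h.2.symm⟩
      trans := fun h h' => ⟨h.1.trans h'.1, h.2.trans h'.2⟩ }
  mul' := by
    intro a b c d h1 h2
    simp only [FreeMonoid.toList_mul]
    rw [Pr_append, Pr_append, h1.1, h1.2, h2.1, mk_app, mk_app, h1.2, h2.2]
    exact ⟨rfl, rfl⟩

lemma toList_winv (u : Wd α) : FreeMonoid.toList (winv u) = invRev (FreeMonoid.toList u) := rfl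

lemma Pr_E (u : List (α × Bool)) : Pr (u ++ invRev u) = Pr u := by
  rw [Pr_append, Pr_invRev, smul_inv_smul, Set.union_self]

lemma mk_E (u : List (α × Bool)) : (mk (u ++ invRev u) : FreeGroup α) = 1 := by
  rw [mk_app, ← inv_mk, mul_inv_cancel]

lemma conGen_le_munn : conGen (VRel (α := α)) ≤ munnCon α := by
  rw [Con.conGen_le]
  rintro a b h
  cases h with
  | reg =>
    show _ ∧ _
    simp only [FreeMonoid.toList_mul, toList_winv]
    constructor
    · rw [Pr_append, Pr_E, mk_E, one_smul, Set.union_self]
    · rw [mk_app, mk_E, one_mul]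
  | comm u v =>
    show _ ∧ _
    simp only [FreeMonoid.toList_mul, toList_winv]
    have e : ∀ u v : List (α × Bool), Pr (u ++ invRev u ++ v ++ invRev v) = Pr u ∪ Pr v := by
      intro u v
      rw [List.append_assoc, Pr_append, Pr_E, mk_E, one_smul, Pr_E]
    have f : ∀ u v : List (α × Bool), (mk (u ++ invRev u ++ v ++ invRev v) : FreeGroup α) = 1 := by
      intro u v
      rw [List.append_assoc, mk_app, mk_E, mk_E, one_mul]
    exact ⟨by rw [e, e, Set.union_comm], by rw [f, f]⟩

lemma cls_eq_iff_con (u v : List (α × Bool)) :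
    cls u = cls v ↔ conGen (VRel (α := α)) (FreeMonoid.ofList u) (FreeMonoid.ofList v) := by
  unfold cls
  rw [Con.coe_mk', Con.eq]

lemma cls_sound {u v : List (α × Bool)} (h : cls u = cls v) :
    Pr u = Pr v ∧ (mk u : FreeGroup α) = mk v :=
  conGen_le_munn ((cls_eq_iff_con u v).1 h)

lemma cls_append (a b : List (α × Bool)) : cls (a ++ b) = cls a * cls b := by
  unfold cls
  rw [FreeMonoid.ofList_append]
  exact map_mul _ _ _

lemma cls_nil : cls ([] : List (α × Bool)) = 1 := by
  unfold cls
  exact map_one _

lemma cls_surj (x : FIM α) : ∃ w, cls w = x := by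
  obtain ⟨w, rfl⟩ := Con.mk'_surjective x
  exact ⟨FreeMonoid.toList w, rfl⟩

lemma cls_reg (u : List (α × Bool)) : cls u * cls (invRev u) * cls u = cls u := by
  rw [← cls_append, ← cls_append, cls_eq_iff_con]
  exact ConGen.Rel.of _ _ (VRel.reg (FreeMonoid.ofList u))

lemma cls_comm (u v : List (α × Bool)) :
    cls u * cls (invRev u) * (cls v * cls (invRev v)) =
      cls v * cls (invRev v) * (cls u * cls (invRev u)) := by
  simp only [← cls_append, ← List.append_assoc]
  rw [cls_eq_iff_con]
  exact ConGen.Rel.of _ _ (VRel.comm (FreeMonoid.ofList u) (FreeMonoid.ofList v))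

section complete

variable [DecidableEq α]

/-- the class of the reduced word leading to a vertex -/
def rho (g : FreeGroup α) : FIM α := cls (toWord g)
/-- the idempotent of a vertex -/
def ee (g : FreeGroup α) : FIM α := rho g * cls (invRev (toWord g))

lemma ee_rho (g : FreeGroup α) : ee g * rho g = rho g := cls_reg _

lemma ee_comm (u v : FreeGroup α) : ee u * ee v = ee v * ee u := cls_comm _ _

lemma ee_idem (v : FreeGroup α) : ee v * ee v = ee v := by
  unfold ee
  rw [← mul_assoc]
  congr 1
  exact cls_reg _

lemma rho_one : rho (1 : FreeGroup α) = 1 := by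
  unfold rho
  rw [toWord_one, cls_nil]

lemma rho_step (g : FreeGroup α) (x : α × Bool) :
    rho g * cls [x] = ee g * rho (g * mk [x]) := by
  rcases List.eq_nil_or_concat (toWord g) with h | ⟨s, y, h⟩
  · have h1 : g = 1 := toWord_eq_nil_iff.1 h
    subst h1
    have h2 : ee (1 : FreeGroup α) = 1 := by
      unfold ee
      rw [rho_one, toWord_one]
      simp [cls_nil]
    rw [h2, rho_one, one_mul, one_mul, one_mul]
    unfold rho
    rw [toWord_mk, reduce_singleton]
  · rw [List.concat_eq_append] at h
    have hg : g = mk (s ++ [y]) := by rw [← h, mk_toWord]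
    have hred : FreeGroup.IsReduced (s ++ [y]) := by rw [← h]; exact isReduced_toWord
    by_cases hy : y = (x.1, !x.2)
    · -- backtracking
      have hgx : g * mk [x] = mk s := by
        rw [hg, hy, mk_app]
        have : (mk [(x.1, !x.2)] : FreeGroup α) = (mk [x])⁻¹ := by
          rw [inv_mk]; rfl
        rw [this]
        group
      have hs : toWord (mk s : FreeGroup α) = s := by
        rw [toWord_mk]
        have h5 : FreeGroup.IsReduced s := by
          unfold FreeGroup.IsReduced at hred ⊢
          exact (List.isChain_append.1 hred).1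
        exact h5.reduce_eq
      have e1 : rho g = cls s * cls [y] := by
        unfold rho
        rw [h, cls_append]
      have e2 : cls (invRev (toWord g)) = cls [x] * cls (invRev s) := by
        rw [h, invRev_append, cls_append, hy]
        congr 1
        simp [invRev]
      have e3 : rho (g * mk [x]) = cls s := by
        unfold rho
        rw [hgx, hs]
      have e5 : cls (invRev s) * cls s * (cls [y] * cls [x]) =
          cls [y] * cls [x] * (cls (invRev s) * cls s) := by
        have := cls_comm (invRev s) [y]
        rw [invRev_invRev] at this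
        have h2 : invRev [y] = [x] := by
          rw [hy]; simp [invRev]
        rw [h2] at this
        exact this
      calc rho g * cls [x] = cls s * (cls [y] * cls [x]) := by rw [e1, mul_assoc]
        _ = cls s * cls (invRev s) * cls s * (cls [y] * cls [x]) := by rw [cls_reg]
        _ = cls s * (cls (invRev s) * cls s * (cls [y] * cls [x])) := by
            simp only [mul_assoc]
        _ = cls s * (cls [y] * cls [x] * (cls (invRev s) * cls s)) := by rw [e5]
        _ = ee g * rho (g * mk [x]) := by
            unfold ee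
            rw [e1, e2, e3]
            simp only [mul_assoc]
    · have hw : toWord (g * mk [x]) = toWord g ++ [x] := by
        have : g * mk [x] = mk (s ++ [y] ++ [x]) := by rw [mk_app, ← hg]
        rw [this, toWord_mk, h]
        apply FreeGroup.IsReduced.reduce_eq
        unfold FreeGroup.IsReduced at hred ⊢
        rw [List.isChain_append]
        refine ⟨hred, List.isChain_singleton _, ?_⟩
        intro a ha b hb
        simp at ha hb
        subst ha hb
        intro h1
        by_contra h2
        apply hy
        refine Prod.ext h1 ?_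
        simp only
        cases hh : y.2 <;> cases hh' : x.2 <;> simp_all
      have e1 : rho (g * mk [x]) = rho g * cls [x] := by
        unfold rho
        rw [hw, cls_append]
      rw [e1, ← mul_assoc, ee_rho]

/-- visited vertices -/
def vis (u : FreeGroup α) : List (α × Bool) → List (FreeGroup α)
  | [] => [u]
  | x :: w => u :: vis (u * mk [x]) w

omit [DecidableEq α] in
lemma mem_vis (u : FreeGroup α) (w : List (α × Bool)) (v : FreeGroup α) :
    v ∈ vis u w ↔ u⁻¹ * v ∈ Pr w := by
  induction w generalizing u with
  | nil =>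
    simp only [vis, List.mem_singleton, Pr_nil, Set.mem_singleton_iff]
    constructor
    · rintro rfl; simp
    · intro h; exact (inv_mul_eq_one.1 h).symm
  | cons x w ih =>
    have : x :: w = [x] ++ w := rfl
    rw [this, Pr_append]
    simp only [List.cons_append, List.nil_append, vis, List.mem_cons, ih, Set.mem_union,
      Set.mem_smul_set_iff_inv_smul_mem, smul_eq_mul]
    have e : (u * mk [x])⁻¹ * v = (mk [x])⁻¹ * (u⁻¹ * v) := by group
    rw [e]
    constructor
    · rintro (rfl | h)
      · left; simp [one_mem_Pr]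
      · right; exact h
    · rintro (h | h)
      · obtain ⟨a, b, hab, hx⟩ := mem_Pr.1 h
        cases a with
        | nil =>
          left
          have : u⁻¹ * v = 1 := hx
          exact (inv_mul_eq_one.1 this).symm
        | cons a t =>
          right
          have h1 : a = x ∧ t = [] := by
            simp at hab
            exact ⟨hab.1.symm, hab.2.1⟩
          rw [hx, h1.1, h1.2, inv_mul_cancel]
          exact one_mem_Pr w
      · right; exact h

/-- product of idempotents -/
def EE (l : List (FreeGroup α)) : FIM α := (l.map ee).prod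

lemma cls_eq (u : FreeGroup α) (w : List (α × Bool)) :
    rho u * cls w = EE (vis u w) * rho (u * mk w) := by
  induction w generalizing u with
  | nil =>
    have : (mk [] : FreeGroup α) = 1 := rfl
    simp [EE, cls_nil, ee_rho, vis, this]
  | cons x w ih =>
    have : x :: w = [x] ++ w := rfl
    rw [this, cls_append, ← mul_assoc, rho_step, mul_assoc, ih, mk_app]
    simp [EE, mul_assoc, vis]

lemma ee_EE_comm (v : FreeGroup α) (l : List (FreeGroup α)) : ee v * EE l = EE l * ee v := by
  induction l with
  | nil => simp [EE]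
  | cons a l ih =>
    have : EE (a :: l) = ee a * EE l := by simp [EE]
    rw [this, ← mul_assoc, ee_comm v a, mul_assoc, ih, mul_assoc]

lemma ee_mul_EE {v : FreeGroup α} {l : List (FreeGroup α)} (h : v ∈ l) : ee v * EE l = EE l := by
  induction l with
  | nil => simp at h
  | cons a l ih =>
    have e : EE (a :: l) = ee a * EE l := by simp [EE]
    rcases List.mem_cons.1 h with h1 | h1
    · rw [e, h1, ← mul_assoc, ee_idem]
    · rw [e, ← mul_assoc, ee_comm, mul_assoc, ih h1]

lemma EE_mul_of_subset {l l' : List (FreeGroup α)} (h : ∀ v ∈ l', v ∈ l) :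
    EE l' * EE l = EE l := by
  induction l' with
  | nil => simp [EE]
  | cons a l' ih =>
    have e : EE (a :: l') = ee a * EE l' := by simp [EE]
    rw [e, mul_assoc, ih (fun v hv => h v (List.mem_cons_of_mem _ hv)),
      ee_mul_EE (h a (by simp))]

lemma EE_comm (l l' : List (FreeGroup α)) : EE l * EE l' = EE l' * EE l := by
  induction l with
  | nil => simp [EE]
  | cons a l ih =>
    have e : EE (a :: l) = ee a * EE l := by simp [EE]
    rw [e, mul_assoc, ih, ← mul_assoc, ee_EE_comm, mul_assoc]

lemma EE_congr {l l' : List (FreeGroup α)} (h : ∀ v, v ∈ l ↔ v ∈ l') : EE l = EE l' := by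
  have h1 : EE l' * EE l = EE l := EE_mul_of_subset (fun v hv => (h v).2 hv)
  have h2 : EE l * EE l' = EE l' := EE_mul_of_subset (fun v hv => (h v).1 hv)
  rw [← h1, EE_comm, h2]

end complete

/-- Munn's theorem -/
theorem munn (w w' : List (α × Bool)) :
    cls w = cls w' ↔ Pr w = Pr w' ∧ (mk w : FreeGroup α) = mk w' := by
  classical
  constructor
  · exact cls_sound
  · rintro ⟨h1, h2⟩
    have e1 := cls_eq 1 w
    have e2 := cls_eq 1 w'
    rw [rho_one, one_mul, one_mul] at e1 e2
    rw [e1, e2, h2]
    congr 1
    apply EE_congr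
    intro v
    rw [mem_vis, mem_vis, h1]

end Pool.Agent.R742.FI
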